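import Mathlib
import Pool.Agent.W715.BC.Defs

set_option autoImplicit false

open Classical Finset

namespace Pool.Agent.W247.BC

section core

variable {V : Type}

noncomputable def dg (H : V → V → Prop) (W : Finset V) (x : V) : ℕ :=
  (W.filter (fun y => H x y)).card

noncomputable def ff (H : V → V → Prop) (W : Finset V) : ℕ := ∑ x ∈ W, dg H W x

lemma dg_eq (H : V → V → Prop) (W : Finset V) (x : V) :
    dg H W x = ∑ y ∈ W, if H x y then 1 else 0 := by
  unfold dg; rw [Finset.card_filter]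

lemma block {α : Type} (w : α → ℝ) (M : ℝ) (h : ℕ) : ∀ (J : ℕ) (W : Finset α),
    (∀ B ⊆ W, B.card ≤ h → ∑ y ∈ B, w y ≤ M) → W.card ≤ J * h → ∑ y ∈ W, w y ≤ J * M := by
  intro J
  induction J with
  | zero =>
    intro W _ hW
    have : W = ∅ := by
      rw [← Finset.card_eq_zero]; omega
    simp [this]
  | succ J ih =>
    intro W hM hW
    obtain ⟨B, hBW, hB⟩ := Finset.exists_subset_card_eq (show min h W.card ≤ W.card from min_le_right _ _)
    have h1 : ∑ y ∈ B, w y ≤ M := hM B hBW (by rw [hB]; exact min_le_left _ _)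
    have h2 : ∑ y ∈ W \ B, w y ≤ J * M := by
      apply ih
      · intro B' hB' hc
        exact hM B' (hB'.trans sdiff_subset) hc
      · have := Finset.card_sdiff_add_card_eq_card hBW
        rcases le_total h W.card with hh | hh
        · rw [min_eq_left hh] at hB
          rw [Nat.succ_mul] at hW
          omega
        · rw [min_eq_right hh] at hB
          omega
    have h3 := Finset.sum_sdiff (f := w) hBW
    push_cast
    linarith

lemma cross {H : V → V → Prop} (A B : Finset V) :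
    ∑ x ∈ A, ∑ y ∈ B, (if H x y then 1 else 0) ≤ ff H (A ∪ B) := by
  unfold ff
  calc ∑ x ∈ A, ∑ y ∈ B, (if H x y then 1 else 0)
      ≤ ∑ x ∈ A, ∑ y ∈ A ∪ B, (if H x y then 1 else 0) := by
        apply Finset.sum_le_sum
        intro x _
        exact Finset.sum_le_sum_of_subset Finset.subset_union_right
    _ ≤ ∑ x ∈ A ∪ B, ∑ y ∈ A ∪ B, (if H x y then 1 else 0) :=
        Finset.sum_le_sum_of_subset Finset.subset_union_left
    _ = _ := by
        apply Finset.sum_congr rfl
        intro x _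
        rw [dg_eq]

lemma remove {H : V → V → Prop} (hH : ∀ x y, H x y → H y x) {A W : Finset V} (hA : A ⊆ W) :
    ff H W ≤ ff H (W \ A) + 2 * ∑ x ∈ A, dg H W x := by
  have e1 : ff H W = ∑ x ∈ W \ A, dg H W x + ∑ x ∈ A, dg H W x := by
    unfold ff; exact (Finset.sum_sdiff hA).symm
  have e2 : ∑ x ∈ W \ A, dg H W x = ff H (W \ A) + ∑ x ∈ W \ A, ∑ y ∈ A, (if H x y then 1 else 0) := by
    unfold ff
    rw [← Finset.sum_add_distrib]
    apply Finset.sum_congr rfl
    intro x _
    rw [dg_eq, dg_eq, Finset.sum_sdiff hA]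
  have e3 : ∑ x ∈ W \ A, ∑ y ∈ A, (if H x y then 1 else 0) ≤ ∑ x ∈ A, dg H W x := by
    rw [Finset.sum_comm]
    apply Finset.sum_le_sum
    intro y _
    rw [dg_eq]
    calc ∑ x ∈ W \ A, (if H x y then 1 else 0) ≤ ∑ x ∈ W, (if H x y then 1 else 0) :=
          Finset.sum_le_sum_of_subset sdiff_subset
      _ = _ := by
          apply Finset.sum_congr rfl
          intro x _
          have : H x y ↔ H y x := ⟨hH x y, hH y x⟩
          simp [this]
  omega

lemma dg_mono {H : V → V → Prop} {S W : Finset V} (h : S ⊆ W) (x : V) : dg H S x ≤ dg H W x := by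
  unfold dg
  exact Finset.card_le_card (Finset.filter_subset_filter _ h)

lemma ff_le_sq {H : V → V → Prop} (W : Finset V) : ff H W ≤ W.card * W.card := by
  unfold ff
  calc ∑ x ∈ W, dg H W x ≤ ∑ x ∈ W, W.card := by
        apply Finset.sum_le_sum
        intro x _
        exact Finset.card_filter_le _ _
    _ = _ := by simp

theorem core [Fintype V] {H : V → V → Prop} (hH : ∀ x y, H x y → H y x) {ε : ℝ} (h0 : 0 < ε) (h1 : ε < 1)
    {J : ℕ} (hJ : 64 ≤ (J : ℝ) ^ ε) {C1 : ℝ} (hC : (J : ℝ) ≤ C1)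
    (hf : C1 * (Fintype.card V : ℝ) ^ (1 + ε) < (ff H univ : ℝ)) :
    ∃ (S : Finset V) (D : ℕ), 0 < ff H S ∧ C1 / 8 * (S.card : ℝ) ^ ε ≤ (D : ℝ) ∧
      ∀ x ∈ S, D ≤ dg H S x ∧ dg H S x ≤ 8 * J * D := by
  have hJ1 : 1 ≤ (J : ℝ) := by
    by_contra hcon
    have : J = 0 := by
      have : (J : ℝ) < 1 := not_le.mp hcon
      have : J < 1 := by exact_mod_cast this
      omega
    rw [this, Nat.cast_zero, Real.zero_rpow h0.ne'] at hJ
    linarith
  have hJ64 : 64 ≤ (J : ℝ) := by
    calc (64 : ℝ) ≤ (J : ℝ) ^ ε := hJ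
      _ ≤ (J : ℝ) ^ (1 : ℝ) := Real.rpow_le_rpow_of_exponent_le hJ1 h1.le
      _ = J := Real.rpow_one _
  have hC0 : 0 < C1 := by linarith
  have hune : (univ : Finset V).Nonempty := by
    by_contra hcon
    rw [Finset.not_nonempty_iff_eq_empty] at hcon
    rw [hcon] at hf
    have : ff H (∅ : Finset V) = 0 := by simp [ff]
    rw [this] at hf
    have : 0 ≤ C1 * (Fintype.card V : ℝ) ^ (1 + ε) := by positivity
    simp at hf
    linarith
  -- maximal density
  obtain ⟨W, hWm, hWmax⟩ := Finset.exists_max_image (univ.filter (fun W : Finset V => W.Nonempty))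
    (fun W => (ff H W : ℝ) / (W.card : ℝ) ^ (1 + ε)) ⟨univ, by simpa using hune⟩
  have hWne : W.Nonempty := by simpa using hWm
  obtain ⟨m, hm⟩ : ∃ m : ℕ, m = W.card := ⟨_, rfl⟩
  rw [← hm] at hWmax
  obtain ⟨φ, hφ⟩ : ∃ φ : ℝ, φ = (ff H W : ℝ) / (m : ℝ) ^ (1 + ε) := ⟨_, rfl⟩
  rw [← hφ] at hWmax
  have hm1 : 1 ≤ m := by rw [hm]; exact hWne.card_pos
  have hm1' : (1 : ℝ) ≤ m := by exact_mod_cast hm1
  have hm0 : (0 : ℝ) < m := by linarith
  have hall : ∀ S : Finset V, S.Nonempty → (ff H S : ℝ) ≤ φ * (S.card : ℝ) ^ (1 + ε) := by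
    intro S hS
    have hp : 0 < (S.card : ℝ) ^ (1 + ε) := by
      apply Real.rpow_pos_of_pos
      exact_mod_cast hS.card_pos
    have := hWmax S (by simpa using hS)
    rwa [div_le_iff₀ hp] at this
  have hφC : C1 < φ := by
    have hp : 0 < (Fintype.card V : ℝ) ^ (1 + ε) := by
      apply Real.rpow_pos_of_pos
      have : 0 < Fintype.card V := Fintype.card_pos_iff.mpr ⟨hune.choose⟩
      exact_mod_cast this
    have h2 := hall univ hune
    rw [Finset.card_univ] at h2
    have h3 := lt_of_lt_of_le hf h2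
    exact lt_of_mul_lt_mul_right h3 hp.le
  have hφ0 : 0 < φ := by linarith
  have hpm : 0 < (m : ℝ) ^ (1 + ε) := Real.rpow_pos_of_pos hm0 _
  have hE : (ff H W : ℝ) = φ * (m : ℝ) ^ (1 + ε) := by
    rw [hφ]; field_simp
  have hE0 : 0 < (ff H W : ℝ) := by rw [hE]; positivity
  have hmε : (m : ℝ) ^ (1 + ε) = m * (m : ℝ) ^ ε := by
    rw [Real.rpow_add hm0, Real.rpow_one]
  -- J ≤ m
  have hJm : (J : ℝ) ≤ m := by
    have h2 : (ff H W : ℝ) ≤ m * m := by rw [hm]; exact_mod_cast ff_le_sq (H := H) W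
    rw [hE, hmε] at h2
    have h3 : φ * (m : ℝ) ^ ε ≤ m := by
      have : φ * (m * (m : ℝ) ^ ε) = (φ * (m : ℝ) ^ ε) * m := by ring
      rw [this] at h2
      exact le_of_mul_le_mul_right h2 hm0
    have h4 : (1 : ℝ) ≤ (m : ℝ) ^ ε := Real.one_le_rpow hm1' h0.le
    nlinarith
  have hJ0 : (0 : ℝ) < J := by linarith
  -- h
  obtain ⟨h, hh⟩ : ∃ h : ℕ, h = ⌈(m : ℝ) / J⌉₊ := ⟨_, rfl⟩
  have hh1 : (m : ℝ) / J ≤ h := by rw [hh]; exact Nat.le_ceil _
  have hh2 : (h : ℝ) ≤ 2 * m / J := by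
    have h2 : (h : ℝ) < (m : ℝ) / J + 1 := by rw [hh]; exact Nat.ceil_lt_add_one (by positivity)
    have h3 : (1 : ℝ) ≤ m / J := by rw [le_div_iff₀ hJ0]; linarith
    have h4 : 2 * (m : ℝ) / J = m / J + m / J := by ring
    linarith
  have hh0 : (0 : ℝ) < h := lt_of_lt_of_le (by positivity) hh1
  have hhm : h ≤ m := by
    have h2 : 2 * (m : ℝ) / J ≤ m := by
      rw [div_le_iff₀ hJ0]; nlinarith
    exact_mod_cast hh2.trans h2
  have hmJh : m ≤ J * h := by
    have : (m : ℝ) ≤ J * h := by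
      rw [div_le_iff₀ hJ0] at hh1
      linarith
    exact_mod_cast this
  -- A
  obtain ⟨A, hAm, hAmax⟩ := Finset.exists_max_image (W.powersetCard h)
    (fun A => ∑ x ∈ A, dg H W x) (Finset.powersetCard_nonempty.mpr (by rw [← hm]; exact hhm))
  rw [Finset.mem_powersetCard] at hAm
  obtain ⟨hAW, hAc⟩ := hAm
  have hAne : A.Nonempty := by
    rw [← Finset.card_pos, hAc]
    exact_mod_cast hh0
  have hdeg : ∀ x ∈ W \ A, (dg H W x : ℝ) ≤ (ff H W : ℝ) * J / m := by
    intro x hx
    rw [Finset.mem_sdiff] at hx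
    have h2 : ∀ a ∈ A, dg H W x ≤ dg H W a := by
      intro a ha
      have hxa : x ∉ A.erase a := fun hc => hx.2 (Finset.mem_of_mem_erase hc)
      have hmem : insert x (A.erase a) ∈ W.powersetCard h := by
        rw [Finset.mem_powersetCard]
        constructor
        · intro z hz
          rw [Finset.mem_insert] at hz
          rcases hz with rfl | hz
          · exact hx.1
          · exact hAW (Finset.mem_of_mem_erase hz)
        · rw [Finset.card_insert_of_notMem hxa, Finset.card_erase_of_mem ha, hAc]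
          have : 0 < h := by exact_mod_cast hh0
          omega
      have h3 := hAmax _ hmem
      rw [Finset.sum_insert hxa] at h3
      have h4 := Finset.add_sum_erase A (fun x => dg H W x) ha
      have h5 : dg H W a + ∑ x ∈ A.erase a, dg H W x = ∑ x ∈ A, dg H W x := h4
      have h6 : dg H W x + ∑ x ∈ A.erase a, dg H W x ≤ ∑ x ∈ A, dg H W x := h3
      omega
    have h3 : h * dg H W x ≤ ff H W := by
      calc h * dg H W x = ∑ a ∈ A, dg H W x := by rw [Finset.sum_const, hAc, smul_eq_mul]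
        _ ≤ ∑ a ∈ A, dg H W a := Finset.sum_le_sum h2
        _ ≤ ∑ a ∈ W, dg H W a := Finset.sum_le_sum_of_subset hAW
        _ = ff H W := rfl
    have h4 : (h : ℝ) * dg H W x ≤ ff H W := by exact_mod_cast h3
    rw [le_div_iff₀ hm0]
    have h5 : (m : ℝ) ≤ J * h := by exact_mod_cast hmJh
    calc (dg H W x : ℝ) * m ≤ dg H W x * (J * h) := by
          apply mul_le_mul_of_nonneg_left h5 (by positivity)
      _ = (h * dg H W x) * J := by ring
      _ ≤ ff H W * J := mul_le_mul_of_nonneg_right h4 hJ0.le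
  -- sum over A
  have hsumA : (∑ x ∈ A, dg H W x : ℝ) ≤ (ff H W : ℝ) / 4 := by
    have e1 : (∑ x ∈ A, dg H W x : ℝ) = ∑ y ∈ W, ∑ x ∈ A, (if H x y then (1 : ℝ) else 0) := by
      rw [Finset.sum_comm]
      apply Finset.sum_congr rfl
      intro x _
      rw [dg_eq]
      push_cast
      rfl
    have e2 : ∑ y ∈ W, ∑ x ∈ A, (if H x y then (1 : ℝ) else 0) ≤ J * (φ * (2 * h : ℝ) ^ (1 + ε)) := by
      apply block _ _ h J W
      · intro B hB hBc
        have h2 : ∑ y ∈ B, ∑ x ∈ A, (if H x y then (1 : ℝ) else 0) ≤ (ff H (A ∪ B) : ℝ) := by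
          rw [Finset.sum_comm]
          exact_mod_cast cross (H := H) A B
        have h3 := hall (A ∪ B) (hAne.mono Finset.subset_union_left)
        have h4 : ((A ∪ B).card : ℝ) ≤ 2 * h := by
          have := Finset.card_union_le A B
          have h5 : (A ∪ B).card ≤ 2 * h := by omega
          exact_mod_cast h5
        have h6 : ((A ∪ B).card : ℝ) ^ (1 + ε) ≤ (2 * h : ℝ) ^ (1 + ε) :=
          Real.rpow_le_rpow (Nat.cast_nonneg _) h4 (by linarith)
        calc _ ≤ _ := h2
          _ ≤ _ := h3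
          _ ≤ _ := mul_le_mul_of_nonneg_left h6 hφ0.le
      · rw [← hm]; exact hmJh
    have e3 : (2 * h : ℝ) ^ (1 + ε) ≤ (4 * m / J) ^ (1 + ε) := by
      apply Real.rpow_le_rpow (by positivity) _ (by linarith)
      have : 4 * (m : ℝ) / J = 2 * (2 * m / J) := by ring
      linarith
    have e4 : (4 * (m : ℝ) / J) ^ (1 + ε) = (4 : ℝ) ^ (1 + ε) * (m : ℝ) ^ (1 + ε) / (J * (J : ℝ) ^ ε) := by
      rw [Real.div_rpow (by positivity) (by positivity), Real.mul_rpow (by norm_num) (by positivity)]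
      congr 1
      rw [Real.rpow_add hJ0, Real.rpow_one]
    have e5 : (4 : ℝ) ^ (1 + ε) ≤ 16 := by
      calc (4 : ℝ) ^ (1 + ε) ≤ (4 : ℝ) ^ (2 : ℝ) :=
            Real.rpow_le_rpow_of_exponent_le (by norm_num) (by linarith)
        _ = 16 := by norm_num
    have hJε : 0 < (J : ℝ) ^ ε := by linarith
    have e6 : (J : ℝ) * (φ * (4 * (m : ℝ) / J) ^ (1 + ε)) ≤ (ff H W : ℝ) / 4 := by
      rw [e4, hE]
      have : (J : ℝ) * (φ * ((4 : ℝ) ^ (1 + ε) * (m : ℝ) ^ (1 + ε) / (J * (J : ℝ) ^ ε)))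
          = (φ * (m : ℝ) ^ (1 + ε)) * ((4 : ℝ) ^ (1 + ε) / (J : ℝ) ^ ε) := by
        field_simp
      rw [this]
      have h7 : (4 : ℝ) ^ (1 + ε) / (J : ℝ) ^ ε ≤ 1 / 4 := by
        rw [div_le_iff₀ hJε]
        linarith
      have h8 : 0 ≤ φ * (m : ℝ) ^ (1 + ε) := by positivity
      nlinarith [mul_le_mul_of_nonneg_left h7 h8]
    rw [e1]
    calc _ ≤ _ := e2
      _ ≤ (J : ℝ) * (φ * (4 * (m : ℝ) / J) ^ (1 + ε)) := by
          apply mul_le_mul_of_nonneg_left _ hJ0.le
          exact mul_le_mul_of_nonneg_left e3 hφ0.le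
      _ ≤ _ := e6
  -- W1
  have hW1 : (ff H W : ℝ) / 2 ≤ (ff H (W \ A) : ℝ) := by
    have h2 := remove hH hAW
    have h3 : (ff H W : ℝ) ≤ ff H (W \ A) + 2 * ∑ x ∈ A, (dg H W x : ℝ) := by exact_mod_cast h2
    linarith
  obtain ⟨δ, hδ⟩ : ∃ δ : ℝ, δ = (ff H W : ℝ) / (8 * m) := ⟨_, rfl⟩
  have hδ0 : 0 < δ := by rw [hδ]; positivity
  obtain ⟨S, hSm, hSmax⟩ := Finset.exists_max_image (W \ A).powerset
    (fun S => (ff H S : ℝ) - 2 * δ * S.card) ⟨∅, by simp⟩
  rw [Finset.mem_powerset] at hSm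
  have hSW : S ⊆ W := hSm.trans sdiff_subset
  have hval : 0 < (ff H S : ℝ) - 2 * δ * S.card := by
    have h2 : (ff H (W \ A) : ℝ) - 2 * δ * (W \ A).card ≤ (ff H S : ℝ) - 2 * δ * S.card :=
      hSmax (W \ A) (by simp)
    have h3 : ((W \ A).card : ℝ) ≤ m := by rw [hm]; exact_mod_cast Finset.card_le_card sdiff_subset
    have h4 : 2 * δ * ((W \ A).card : ℝ) ≤ (ff H W : ℝ) / 4 := by
      have : 2 * δ * (m : ℝ) = (ff H W : ℝ) / 4 := by
        rw [hδ]; field_simp; ring
      rw [← this]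
      exact mul_le_mul_of_nonneg_left h3 (by positivity)
    linarith
  refine ⟨S, ⌈δ⌉₊, ?_, ?_, ?_⟩
  · have : 0 < (ff H S : ℝ) := by
      have : 0 ≤ 2 * δ * (S.card : ℝ) := mul_nonneg (by positivity) (Nat.cast_nonneg _)
      linarith
    exact_mod_cast this
  · have h2 : δ ≤ ⌈δ⌉₊ := Nat.le_ceil _
    refine le_trans ?_ h2
    have h3 : (S.card : ℝ) ^ ε ≤ (m : ℝ) ^ ε :=
      Real.rpow_le_rpow (Nat.cast_nonneg _) (by rw [hm]; exact_mod_cast Finset.card_le_card hSW) h0.le
    have h4 : δ = φ / 8 * (m : ℝ) ^ ε := by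
      rw [hδ, hE, hmε]; field_simp
    rw [h4]
    calc C1 / 8 * (S.card : ℝ) ^ ε ≤ C1 / 8 * (m : ℝ) ^ ε :=
          mul_le_mul_of_nonneg_left h3 (by positivity)
      _ ≤ φ / 8 * (m : ℝ) ^ ε := by
          apply mul_le_mul_of_nonneg_right _ (by positivity)
          linarith
  · intro x hx
    constructor
    · rw [Nat.ceil_le]
      have h2 : (ff H (S \ {x}) : ℝ) - 2 * δ * (S \ {x}).card ≤ (ff H S : ℝ) - 2 * δ * S.card :=
        hSmax (S \ {x}) (by rw [Finset.mem_powerset]; exact sdiff_subset.trans hSm)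
      have h3 := remove hH (Finset.singleton_subset_iff.mpr hx)
      rw [Finset.sum_singleton] at h3
      have h4 : (ff H S : ℝ) ≤ ff H (S \ {x}) + 2 * (dg H S x : ℝ) := by exact_mod_cast h3
      have h5 : ((S \ {x}).card : ℝ) = S.card - 1 := by
        rw [Finset.sdiff_singleton_eq_erase, Finset.card_erase_of_mem hx, Nat.cast_sub (Finset.card_pos.mpr ⟨x, hx⟩)]
        simp
      rw [h5] at h2
      nlinarith
    · have h2 : (dg H S x : ℝ) ≤ (ff H W : ℝ) * J / m :=
        le_trans (by exact_mod_cast dg_mono hSW x) (hdeg x (hSm hx))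
      have h3 : (ff H W : ℝ) * J / m = 8 * J * δ := by
        rw [hδ]; field_simp
      have h4 : δ ≤ ⌈δ⌉₊ := Nat.le_ceil _
      have h5 : (dg H S x : ℝ) ≤ 8 * J * (⌈δ⌉₊ : ℝ) := by
        rw [h3] at h2
        refine h2.trans ?_
        exact mul_le_mul_of_nonneg_left h4 (by positivity)
      exact_mod_cast h5

/-- half of the edges across some cut -/
theorem cut [Fintype V] (A : V → V → Prop) (hirr : ∀ x, ¬ A x x) :
    ∃ X : Finset V, ff A univ ≤ 2 * ff (fun x y => A x y ∧ ¬ (x ∈ X ↔ y ∈ X)) univ := by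
  have key : ∀ x y : V, x ≠ y → (univ : Finset (Finset V)).card ≤
      2 * (univ.filter (fun X : Finset V => ¬ (x ∈ X ↔ y ∈ X))).card := by
    intro x y hxy
    have h1 := Finset.card_filter_add_card_filter_not (s := (univ : Finset (Finset V)))
      (fun X : Finset V => (x ∈ X ↔ y ∈ X))
    have h2 : (univ.filter (fun X : Finset V => (x ∈ X ↔ y ∈ X))).card ≤
        (univ.filter (fun X : Finset V => ¬ (x ∈ X ↔ y ∈ X))).card := by
      apply Finset.card_le_card_of_injOn (fun X => symmDiff X {x})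
      · intro X hX
        simp only [Finset.coe_filter, Finset.mem_univ, true_and, Set.mem_ofPred_eq] at hX ⊢
        simp only [Finset.mem_symmDiff, Finset.mem_singleton]
        by_cases hx : x ∈ X
        · have hy := hX.mp hx
          simp [hx, hy, hxy.symm]
        · have hy : y ∉ X := fun hc => hx (hX.mpr hc)
          simp [hx, hy, hxy.symm]
      · intro X _ Y _ hXY
        exact symmDiff_left_injective {x} hXY
    omega
  by_contra hcon
  have hcon : ∀ X : Finset V, 2 * ff (fun x y => A x y ∧ ¬ (x ∈ X ↔ y ∈ X)) univ < ff A univ :=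
    fun X => not_le.mp (fun hc => hcon ⟨X, hc⟩)
  have h1 : ∑ X : Finset V, 2 * ff (fun x y => A x y ∧ ¬ (x ∈ X ↔ y ∈ X)) univ <
      ∑ X : Finset V, ff A univ := by
    apply Finset.sum_lt_sum_of_nonempty ⟨∅, Finset.mem_univ _⟩
    intro X _
    exact hcon X
  have h2 : ∑ X : Finset V, ff A univ ≤
      ∑ X : Finset V, 2 * ff (fun x y => A x y ∧ ¬ (x ∈ X ↔ y ∈ X)) univ := by
    calc ∑ X : Finset V, ff A univ
        = ∑ x : V, ∑ y : V, if A x y then (univ : Finset (Finset V)).card else 0 := by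
          rw [Finset.sum_const, smul_eq_mul]
          unfold ff
          rw [Finset.mul_sum]
          apply Finset.sum_congr rfl
          intro x _
          rw [dg_eq, Finset.mul_sum]
          apply Finset.sum_congr rfl
          intro y _
          split_ifs <;> simp
      _ ≤ ∑ x : V, ∑ y : V, if A x y then
            2 * (univ.filter (fun X : Finset V => ¬ (x ∈ X ↔ y ∈ X))).card else 0 := by
          apply Finset.sum_le_sum
          intro x _
          apply Finset.sum_le_sum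
          intro y _
          split_ifs with hA
          · exact key x y (fun hc => hirr x (by rw [← hc] at hA; exact hA))
          · exact le_rfl
      _ = ∑ x : V, ∑ y : V, ∑ X : Finset V, 2 * (if A x y ∧ ¬ (x ∈ X ↔ y ∈ X) then 1 else 0) := by
          apply Finset.sum_congr rfl
          intro x _
          apply Finset.sum_congr rfl
          intro y _
          rw [← Finset.mul_sum]
          split_ifs with hA
          · rw [Finset.card_filter]
            simp [hA]
          · simp [hA]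
      _ = _ := by
          unfold ff
          simp_rw [dg_eq, Finset.mul_sum]
          have e1 : ∀ x : V, (∑ y : V, ∑ X : Finset V,
              2 * (if A x y ∧ ¬ (x ∈ X ↔ y ∈ X) then 1 else 0)) =
              ∑ X : Finset V, ∑ y : V, 2 * (if A x y ∧ ¬ (x ∈ X ↔ y ∈ X) then 1 else 0) :=
            fun x => Finset.sum_comm
          simp_rw [e1]
          rw [Finset.sum_comm]
          apply Finset.sum_congr rfl
          intro X _
          apply Finset.sum_congr rfl
          intro x _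
          apply Finset.sum_congr rfl
          intro y _
          congr
  exact absurd h1 (not_lt.mpr h2)

end core

/-- BC-REG -/
theorem reg_holds : Pool.Agent.W715.BC.S_REG := by
  intro ε h0 h1
  obtain ⟨J, hJ⟩ : ∃ J : ℕ, 64 ≤ (J : ℝ) ^ ε := by
    have h2 := (tendsto_rpow_atTop h0).comp tendsto_natCast_atTop_atTop
    exact (h2.eventually_ge_atTop 64).exists
  have hJpos : 0 < J := by
    by_contra hcon
    have : J = 0 := by omega
    rw [this, Nat.cast_zero, Real.zero_rpow h0.ne'] at hJ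
    linarith
  refine ⟨8 * J, by positivity, ?_⟩
  intro C
  refine ⟨max (8 * C) J, ?_⟩
  intro n G hG
  have hC1J : (J : ℝ) ≤ max (8 * C) J := le_max_right _ _
  obtain ⟨X, hX⟩ := cut (V := Fin n) (fun x y => G.Adj x y) (fun x => G.irrefl)
  have hedge : ff (fun x y => G.Adj x y) (univ : Finset (Fin n)) = 2 * G.edgeSet.ncard := by
    have h2 := G.sum_degrees_eq_twice_card_edges
    have h3 : G.edgeSet.ncard = G.edgeFinset.card := by
      rw [Set.ncard_eq_toFinset_card', SimpleGraph.edgeFinset]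
    rw [h3, ← h2]
    unfold ff
    apply Finset.sum_congr rfl
    intro x _
    unfold dg
    rw [← SimpleGraph.card_neighborFinset_eq_degree, SimpleGraph.neighborFinset_eq_filter]
  have hsym : ∀ x y, (G.Adj x y ∧ ¬ (x ∈ X ↔ y ∈ X)) → (G.Adj y x ∧ ¬ (y ∈ X ↔ x ∈ X)) := by
    rintro x y ⟨ha, hb⟩
    exact ⟨ha.symm, fun hc => hb hc.symm⟩
  have hf : max (8 * C) J * (Fintype.card (Fin n) : ℝ) ^ (1 + ε) <
      (ff (fun x y => G.Adj x y ∧ ¬ (x ∈ X ↔ y ∈ X)) univ : ℝ) := by
    rw [Fintype.card_fin]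
    refine lt_of_lt_of_le hG ?_
    rw [hedge] at hX
    have : G.edgeSet.ncard ≤ ff (fun x y => G.Adj x y ∧ ¬ (x ∈ X ↔ y ∈ X)) univ := by omega
    exact_mod_cast this
  obtain ⟨S, D, hS1, hS2, hS3⟩ := core hsym h0 h1 hJ hC1J hf
  -- the two sides
  have hU : ∀ u ∈ S.filter (· ∈ X), (S.filter (· ∉ X)).filter (fun w => G.Adj u w) =
      S.filter (fun y => G.Adj u y ∧ ¬ (u ∈ X ↔ y ∈ X)) := by
    intro u hu
    rw [Finset.mem_filter] at hu
    rw [Finset.filter_filter]
    apply Finset.filter_congr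
    intro y _
    constructor
    · rintro ⟨a, b⟩
      exact ⟨b, fun hc => a (hc.mp hu.2)⟩
    · rintro ⟨a, b⟩
      exact ⟨fun hc => b ⟨fun _ => hc, fun _ => hu.2⟩, a⟩
  have hW : ∀ w ∈ S.filter (· ∉ X), (S.filter (· ∈ X)).filter (fun u => G.Adj u w) =
      S.filter (fun y => G.Adj w y ∧ ¬ (w ∈ X ↔ y ∈ X)) := by
    intro w hw
    rw [Finset.mem_filter] at hw
    rw [Finset.filter_filter]
    apply Finset.filter_congr
    intro y _
    constructor
    · rintro ⟨a, b⟩
      exact ⟨b.symm, fun hc => hw.2 (hc.mpr a)⟩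
    · rintro ⟨a, b⟩
      refine ⟨?_, a.symm⟩
      by_contra hc
      exact b ⟨fun h => absurd h hw.2, fun h => absurd h hc⟩
  obtain ⟨x, hx, y, hy, hxy⟩ : ∃ x ∈ S, ∃ y ∈ S, (G.Adj x y ∧ ¬ (x ∈ X ↔ y ∈ X)) := by
    by_contra hcon
    have : ff (fun x y => G.Adj x y ∧ ¬ (x ∈ X ↔ y ∈ X)) S = 0 := by
      unfold ff
      apply Finset.sum_eq_zero
      intro x hx
      rw [dg_eq]
      apply Finset.sum_eq_zero
      intro y hy
      rw [if_neg]
      intro hc
      exact hcon ⟨x, hx, y, hy, hc⟩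
    omega
  have hboth : (∃ x ∈ S, x ∈ X) ∧ (∃ x ∈ S, x ∉ X) := by
    by_cases hxX : x ∈ X
    · refine ⟨⟨x, hx, hxX⟩, ⟨y, hy, ?_⟩⟩
      intro hc
      exact hxy.2 ⟨fun _ => hc, fun _ => hxX⟩
    · refine ⟨⟨y, hy, ?_⟩, ⟨x, hx, hxX⟩⟩
      by_contra hc
      exact hxy.2 ⟨fun h => absurd h hxX, fun h => absurd h hc⟩
  refine ⟨S.filter (· ∈ X), S.filter (· ∉ X), D, ?_, ?_, ?_, ?_, ?_, ?_⟩
  · exact Finset.disjoint_filter_filter_not S S _
  · obtain ⟨x, hx, hxX⟩ := hboth.1
    exact ⟨x, Finset.mem_filter.mpr ⟨hx, hxX⟩⟩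
  · obtain ⟨x, hx, hxX⟩ := hboth.2
    exact ⟨x, Finset.mem_filter.mpr ⟨hx, hxX⟩⟩
  · rw [Finset.card_filter_add_card_filter_not]
    refine le_trans ?_ hS2
    have h2 : C ≤ max (8 * C) J / 8 := by
      have := le_max_left (8 * C) (J : ℝ)
      linarith
    exact mul_le_mul_of_nonneg_right h2 (Real.rpow_nonneg (Nat.cast_nonneg _) _)
  · intro u hu
    rw [hU u hu]
    have h2 := hS3 u (Finset.mem_filter.mp hu).1
    unfold dg at h2
    convert h2
  · intro w hw
    rw [hW w hw]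
    have h2 := hS3 w (Finset.mem_filter.mp hw).1
    unfold dg at h2
    convert h2

end Pool.Agent.W247.BC
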